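import Pool.Agent.GT.StmtsC

/-!
Squad GT, row C_LVC (helper96): cardinality and bounds for the sum of Selberg.
-/

open Finset

namespace Pool.Agent.GT.H96

theorem dvd_nn {a : Finset ℕ} (ha : ∀ p ∈ a, p.Prime) {p : ℕ} (hp : p.Prime) :
    p ∣ nn a ↔ p ∈ a := by
  constructor
  · intro h
    unfold nn at h
    obtain ⟨q, hq, hpq⟩ := (hp.prime.dvd_finsetProd_iff _).1 h
    rw [(Nat.prime_dvd_prime_iff_eq hp (ha q hq)).1 hpq]
    exact hq
  · intro h
    exact Finset.dvd_prod_of_mem (fun p => p) h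

theorem nn_inj {P : Finset ℕ} (hP : ∀ p ∈ P, p.Prime) {a b : Finset ℕ} (ha : a ⊆ P) (hb : b ⊆ P)
    (h : nn a = nn b) : a = b := by
  ext p
  constructor
  · intro hp
    have hpp := hP p (ha hp)
    rw [← dvd_nn (fun q hq => hP q (hb hq)) hpp, ← h]
    exact (dvd_nn (fun q hq => hP q (ha hq)) hpp).2 hp
  · intro hp
    have hpp := hP p (hb hp)
    rw [← dvd_nn (fun q hq => hP q (ha hq)) hpp, h]
    exact (dvd_nn (fun q hq => hP q (hb hq)) hpp).2 hp

theorem gg_bounds {P : Finset ℕ} (hP : ∀ p ∈ P, p.Prime) {a : Finset ℕ} (ha : a ⊆ P) :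
    0 ≤ gg a ∧ gg a ≤ 1 := by
  have h0 : ∀ p ∈ a, (1 : ℝ) ≤ (p : ℝ) - 1 := by
    intro p hp
    have h2 : (2 : ℝ) ≤ p := by exact_mod_cast (hP p (ha hp)).two_le
    linarith
  unfold gg
  constructor
  · apply Finset.prod_nonneg
    intro p hp
    have := h0 p hp
    positivity
  · apply Finset.prod_le_one
    · intro p hp
      have := h0 p hp
      positivity
    · intro p hp
      have := h0 p hp
      rw [div_le_one (by linarith)]
      exact this

/-- row C_LVC -/
theorem c_lvc : LvcStmt := by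
  intro P R hP hR
  have hmem : ∀ a ∈ lv P R, a ⊆ P ∧ nn a < R := by
    intro a ha
    unfold lv at ha
    rw [Finset.mem_filter, Finset.mem_powerset] at ha
    exact ha
  have hcard : (lv P R).card ≤ R := by
    have h1 : (lv P R).card ≤ (Finset.range R).card := by
      apply Finset.card_le_card_of_injOn nn
      · intro a ha
        exact Finset.mem_coe.2 (Finset.mem_range.2 (hmem a (Finset.mem_coe.1 ha)).2)
      · intro a ha b hb hab
        exact nn_inj hP (hmem a (Finset.mem_coe.1 ha)).1 (hmem b (Finset.mem_coe.1 hb)).1 hab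
    rwa [Finset.card_range] at h1
  refine ⟨hcard, ?_, ?_⟩
  · have he : (∅ : Finset ℕ) ∈ lv P R := by
      unfold lv
      rw [Finset.mem_filter, Finset.mem_powerset]
      refine ⟨Finset.empty_subset _, ?_⟩
      have : nn ∅ = 1 := by
        unfold nn
        simp
      omega
    have h1 : gg ∅ ≤ GG P R := by
      unfold GG
      exact Finset.single_le_sum (f := gg) (fun r hr => (gg_bounds hP (hmem r hr).1).1) he
    have h2 : gg ∅ = 1 := by
      unfold gg
      simp
    linarith
  · have h1 : GG P R ≤ ∑ r ∈ lv P R, (1 : ℝ) := by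
      unfold GG
      exact Finset.sum_le_sum fun r hr => (gg_bounds hP (hmem r hr).1).2
    have h2 : ∑ r ∈ lv P R, (1 : ℝ) = (lv P R).card := by simp
    have h3 : ((lv P R).card : ℝ) ≤ R := by exact_mod_cast hcard
    linarith

end Pool.Agent.GT.H96
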