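import Pool.Agent.GT.StmtsE
import Pool.Agent.GT.StmtsD

/-!
# Squad GT, row E_NRZ: normalisation
-/

set_option autoImplicit false

namespace Pool.Agent.GT.OF.H96

open Polynomial Pool.Agent.NJ Pool.Agent.GT.D

theorem cases3 : ∀ a : Fin 3 → ZMod 2, a 0 + a 1 + a 2 = 0 →
    (∀ i, a i = 0) ∨ ∃ j, a j = 0 ∧ ∀ k, k ≠ j → a k = 1 := by
  decide

theorem third : ∀ (a : Fin 3 → ZMod 2) (j : Fin 3), a 0 + a 1 + a 2 = 0 →
    (∀ k, k ≠ j → a k = 0) → ∀ i, a i = 0 := by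
  decide

theorem idx : ∀ j k : Fin 3, k ≠ j → k = j + 1 ∨ k = j + 2 := by
  decide

theorem adf_zz {ι : Type} [Fintype ι] (hA : AddStmt) {r : ℕ} (hr : r.Prime) (h : ZMod 2)
    {p : ι → ℕ} (hp : ∀ l, (p l).Prime) : Adf (zz r h p) := by
  refine ⟨fun m n hm hn => ?_⟩
  unfold zz
  rw [(hA.1 r hr).mul m n hm hn,
    Finset.sum_congr rfl fun l _ => (hA.1 (p l) (hp l)).mul m n hm hn, Finset.sum_add_distrib]
  ring

theorem zz_neg {ι : Type} [Fintype ι] (hA : AddStmt) (hV : ValStmt) {r : ℕ} (hr : r.Prime)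
    (h : ZMod 2) {p : ι → ℕ} (hp : ∀ l, (p l).Prime) {n : ℤ} (hn : n ≠ 0) :
    zz r h p (-n) = zz r h p n := by
  have hd : ∀ q : ℕ, q.Prime → vl q (-1) = 0 := fun q hq =>
    (hV.1 q (-1) hq fun hdv => by
      have h1 := Int.natAbs_dvd_natAbs.mpr hdv
      simp only [Int.natAbs_natCast, Int.reduceNeg, Int.natAbs_neg, Int.natAbs_one] at h1
      exact hq.one_lt.ne' (Nat.dvd_one.mp h1)).1
  have h1 : zz r h p (-1) = 0 := by
    unfold zz
    rw [hd r hr, Finset.sum_eq_zero fun l _ => hd (p l) (hp l)]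
    ring
  have h2 := (adf_zz hA hr h hp).mul (-1) n (by norm_num) hn
  rw [neg_one_mul, h1, zero_add] at h2
  exact h2

theorem adf_isSquare {f : ℤ → ZMod 2} (hf : Adf f) {n : ℤ} (hn : n ≠ 0) (hs : IsSquare n) :
    f n = 0 := by
  obtain ⟨c, rfl⟩ := hs
  exact hf.sq fun hc => hn (by rw [hc, mul_zero])

theorem e_nrz (hT : TrlStmt) (hD : DvlStmt) (hA : AddStmt) (hV : ValStmt) : NrzStmt := by
  intro ι _ _ P r bl m st p h N hN hW x w hx
  obtain ⟨-, hD2, -, -⟩ := hD ι P r bl m st p h N hN hW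
  set D := Dn P bl m st p with hDdef
  set e := rt 1 D with he
  have hf : Adf (zz r h p) := adf_zz hA hW.rp h hW.pr
  have hdif : ∀ j k : Fin 3, k ≠ j → e j - e k ≠ 0 ∧ zz r h p (e j - e k) = 1 := by
    intro j k hk
    obtain ⟨h1, h2, -⟩ := rt_sub (K := 1) hW.sum j
    rcases idx j k hk with rfl | rfl
    · have e1 : e j - e (j + 1) = D (j + 2) := by
        rw [he]
        linear_combination -h1
      rw [e1]
      exact ⟨(hD2 _).1, (hD2 _).2.2.2⟩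
    · have e1 : e j - e (j + 2) = -D (j + 1) := by
        rw [he]
        linear_combination -h2
      rw [e1, zz_neg hA hV hW.rp h hW.pr (hD2 _).1]
      exact ⟨neg_ne_zero.mpr (hD2 _).1, (hD2 _).2.2.2⟩
  have hsum : ∀ x w : ℤ, Tri e x w →
      zz r h p (Xc e x w 0) + zz r h p (Xc e x w 1) + zz r h p (Xc e x w 2) = 0 := by
    intro x w ht
    rw [← hf.mul _ _ (ht.ne 0) (ht.ne 1), ← hf.mul _ _ (mul_ne_zero (ht.ne 0) (ht.ne 1)) (ht.ne 2)]
    exact adf_isSquare hf (mul_ne_zero (mul_ne_zero (ht.ne 0) (ht.ne 1)) (ht.ne 2)) ht.sq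
  rcases cases3 (fun i => zz r h p (Xc e x w i)) (hsum x w hx) with h0 | ⟨j, -, hj⟩
  · exact ⟨x, w, hx, h0, Or.inl fun k => ⟨_, rfl⟩⟩
  · obtain ⟨x', w', hx', hsq⟩ := hT e x w (fun i j hij => by
      have := (hdif i j (Ne.symm hij)).1
      exact sub_ne_zero.mp this) hx j
    refine ⟨x', w', hx', ?_, Or.inr ⟨j, hsq⟩⟩
    refine third (fun i => zz r h p (Xc e x' w' i)) j (hsum x' w' hx') fun k hk => ?_
    have hne := mul_ne_zero (hx.ne k) (hx'.ne k)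
    have h1 := adf_isSquare hf (mul_ne_zero hne (hdif j k hk).1) (hsq k hk)
    rw [hf.mul _ _ hne (hdif j k hk).1, hf.mul _ _ (hx.ne k) (hx'.ne k), (hdif j k hk).2] at h1
    have h2 : zz r h p (Xc e x w k) = 1 := hj k hk
    rw [h2] at h1
    have h3 : ∀ a : ZMod 2, 1 + a + 1 = 0 → a = 0 := by decide
    exact h3 _ h1

end Pool.Agent.GT.OF.H96
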